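import Pool.Agent.N743.SS.PiE
import Pool.Agent.R352.Q.Ind

/-!
# Zeta values and incomplete zeta values: joint measures
-/

set_option autoImplicit false

namespace Run7.h168.Z3

open Pool.Agent.R352.E Pool.Agent.R352.Q Pool.Agent.N743.SS Pool.Agent.TH456.TM
open Pool.Agent.R356 (JointR)

section Rec

variable {S : Type*} [CommRing S]

/-- `a_0^(n+1)` times the `n`-th coefficient of the logarithmic derivative of `∑ a_i X^i` -/
def Lt (a : ℕ → S) (n : ℕ) : S :=
  ((n : S) + 1) * a (n + 1) * a 0 ^ n -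
    ∑ j : Fin n, a (n - j) * a 0 ^ (n - 1 - j) * Lt a j
termination_by n
decreasing_by exact j.2

lemma Lt_map {T : Type*} [CommRing T] (φ : S →+* T) (a : ℕ → S) (n : ℕ) :
    φ (Lt a n) = Lt (fun i => φ (a i)) n := by
  induction n using Nat.strong_induction_on with
  | _ n ih =>
    rw [Lt, Lt]
    simp only [map_sub, map_mul, map_add, map_natCast, map_one, map_pow, map_sum]
    congr 1
    refine Finset.sum_congr rfl fun j _ => ?_
    rw [ih j j.2]

lemma Lt_coeff {K : Type*} [Field K] (A L : PowerSeries K)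
    (hL : PowerSeries.derivative K A = A * L) (n : ℕ) :
    Lt (fun i => PowerSeries.coeff i A) n =
      PowerSeries.coeff 0 A ^ (n + 1) * PowerSeries.coeff n L := by
  induction n using Nat.strong_induction_on with
  | _ n ih =>
    have h1 := congrArg (PowerSeries.coeff n) hL
    rw [PowerSeries.coeff_derivative, PowerSeries.coeff_mul,
      Finset.Nat.sum_antidiagonal_eq_sum_range_succ
        (fun i j => PowerSeries.coeff i A * PowerSeries.coeff j L),
      ← Finset.sum_range_reflect, Finset.sum_range_succ] at h1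
    have e0 : n + 1 - 1 - n = 0 := by omega
    have e1 : n - 0 = n := by omega
    rw [e0, e1] at h1
    rw [Lt]
    have h2 : ∑ j : Fin n, PowerSeries.coeff (n - j) A * PowerSeries.coeff 0 A ^ (n - 1 - j) *
        Lt (fun i => PowerSeries.coeff i A) j =
        PowerSeries.coeff 0 A ^ n * ∑ j ∈ Finset.range n, PowerSeries.coeff (n + 1 - 1 - j) A *
          PowerSeries.coeff (n - (n + 1 - 1 - j)) L := by
      rw [Finset.mul_sum, Finset.sum_range]
      refine Finset.sum_congr rfl fun j _ => ?_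
      have hj := j.2
      rw [ih j j.2]
      have e2 : n + 1 - 1 - (j : ℕ) = n - j := by omega
      have e3 : n - (n - (j : ℕ)) = j := by omega
      rw [e2, e3]
      have e4 : PowerSeries.coeff 0 A ^ n =
          PowerSeries.coeff 0 A ^ (n - 1 - j) * PowerSeries.coeff 0 A ^ ((j : ℕ) + 1) := by
        rw [← pow_add]
        congr 1
        omega
      rw [e4]
      ring
    rw [h2]
    have h3 : ((n : K) + 1) * PowerSeries.coeff (n + 1) A =
        ∑ j ∈ Finset.range n, PowerSeries.coeff (n + 1 - 1 - j) A *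
          PowerSeries.coeff (n - (n + 1 - 1 - j)) L + PowerSeries.coeff 0 A * PowerSeries.coeff n L := by
      rw [← h1]; ring
    rw [h3]
    ring

/-- the value when `a_0 = 0` -/
lemma Lt_zero (a : ℕ → S) (h0 : a 0 = 0) (n : ℕ) : Lt a n = (-1) ^ n * a 1 ^ (n + 1) := by
  induction n with
  | zero => rw [Lt]; simp
  | succ n ih =>
    rw [Lt, Fin.sum_univ_castSucc]
    have h1 : ∑ j : Fin n, a (n + 1 - (j.castSucc : Fin (n + 1))) *
        a 0 ^ (n + 1 - 1 - (j.castSucc : Fin (n + 1))) * Lt a (j.castSucc : Fin (n + 1)) = 0 := by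
      refine Finset.sum_eq_zero fun j _ => ?_
      have hj := j.2
      rw [h0, zero_pow]
      · ring
      · simp only [Fin.val_castSucc]; omega
    rw [h1, Fin.val_last, ih, h0, zero_pow (Nat.succ_ne_zero n)]
    have e1 : n + 1 - n = 1 := by omega
    have e2 : n + 1 - 1 - n = 0 := by omega
    rw [e1, e2, pow_zero]
    ring

end Rec

/-- the coefficients of the series of the functions `E_l` as polynomials -/
noncomputable def ac {J k : ℕ} (m : ℕ) (i : Fin k) (l : ℕ) : MvPolynomial (Option (Fin J × Fin k)) ℤ :=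
  if l = 0 then 1 - MvPolynomial.X none ^ m
  else if h : l - 1 < J then MvPolynomial.C ((-1) ^ l) * MvPolynomial.X (some (⟨l - 1, h⟩, i)) else 0

/-- the incomplete zeta value as a polynomial in the values `E_l` -/
noncomputable def Zp {J k : ℕ} (w m : ℕ) (i : Fin k) : MvPolynomial (Option (Fin J × Fin k)) ℤ :=
  MvPolynomial.C ((-1) ^ w) * Lt (ac m i) (w - 1)

/-- only the coefficients up to `n + 1` matter -/
lemma Lt_congr {S : Type*} [CommRing S] (a b : ℕ → S) (n : ℕ) (h : ∀ i ≤ n + 1, a i = b i) :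
    Lt a n = Lt b n := by
  induction n using Nat.strong_induction_on with
  | _ n ih =>
    rw [Lt, Lt, h (n + 1) le_rfl, h 0 (by omega)]
    congr 1
    refine Finset.sum_congr rfl fun j _ => ?_
    have hj := j.2
    rw [ih j j.2 (fun i hi => h i (by omega)), h (n - j) (by omega)]

lemma Zp_val {J k : ℕ} (w : ℕ) (hw : 2 ≤ w) (hJ : w ≤ J) (q : ℕ) (hq : 1 ≤ q) (mm : Fin k → ℕ) (i : Fin k)
    (x : ℝ) (hx : 0 < x) (hxe : (mm i : ℝ) / q = x) :
    MvPolynomial.aeval (fun o : Option (Fin J × Fin k) =>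
      o.elim (Real.exp (-1 / q)) (fun p => EE (p.1 + 1) ((mm p.2 : ℝ) / q))) (Zp w (mm i) i) = Zk w x := by
  obtain ⟨y, hy⟩ : ∃ y : Option (Fin J × Fin k) → ℝ, y = (fun o : Option (Fin J × Fin k) =>
      o.elim (Real.exp (-1 / q)) (fun p => EE (p.1 + 1) ((mm p.2 : ℝ) / q))) := ⟨_, rfl⟩
  rw [← hy]
  have hq0 : (q : ℝ) ≠ 0 := by positivity
  have h1 : MvPolynomial.aeval y (Lt (ac (J := J) (mm i) i) (w - 1)) =
      Lt (fun l => PowerSeries.coeff l (As x)) (w - 1) := by
    have h2 := Lt_map (MvPolynomial.aeval y : MvPolynomial (Option (Fin J × Fin k)) ℤ →ₐ[ℤ] ℝ).toRingHom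
      (ac (J := J) (mm i) i) (w - 1)
    refine Eq.trans h2 (Lt_congr _ _ _ fun l hl => ?_)
    rw [As, PowerSeries.coeff_mk]
    show MvPolynomial.aeval y (ac (mm i) i l) = _
    rw [ac]
    split_ifs with h0 h3
    · rw [h0, EE_zero_left, map_sub, map_one, map_pow, MvPolynomial.aeval_X, hy]
      simp only [Option.elim, pow_zero, one_mul]
      rw [← Real.exp_nat_mul, ← hxe]
      congr 2
      field_simp
    · rw [map_mul, MvPolynomial.aeval_C, MvPolynomial.aeval_X, hy]
      simp only [Option.elim]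
      rw [hxe]
      have e1 : l - 1 + 1 = l := by omega
      rw [e1]
      simp
    · omega
  rw [Zp, map_mul, MvPolynomial.aeval_C, h1, Lt_coeff (As x) (Ls x) (deriv_As hx), Zk]
  have e1 : w - 1 + 1 = w := by omega
  rw [e1, PowerSeries.coeff_zero_eq_constantCoeff_apply, const_As]
  simp

/-- the value of the polynomial at points with first coordinate `1` -/
lemma Zp_one {J k : ℕ} (w : ℕ) (hw : 2 ≤ w) (hJ : w ≤ J) (m : ℕ) (i : Fin k)
    (ψ : Option (Fin J × Fin k) → ℂ) (h1 : ψ none = 1) :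
    MvPolynomial.aeval ψ (Zp w m i) = -((-ψ (some (⟨0, by omega⟩, i))) ^ w) := by
  have h2 := Lt_map (MvPolynomial.aeval ψ : MvPolynomial (Option (Fin J × Fin k)) ℤ →ₐ[ℤ] ℂ).toRingHom
      (ac (J := J) m i) (w - 1)
  rw [Zp, map_mul, MvPolynomial.aeval_C]
  have h3 : MvPolynomial.aeval ψ (Lt (ac m i) (w - 1)) =
      Lt (fun l => MvPolynomial.aeval ψ (ac m i l)) (w - 1) := h2
  rw [h3, Lt_zero]
  · obtain ⟨v, rfl⟩ : ∃ v, w = v + 1 := ⟨w - 1, by omega⟩
    simp only [Nat.add_sub_cancel]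
    rw [ac, if_neg one_ne_zero, dif_pos (show 1 - 1 < J by omega), map_mul, MvPolynomial.aeval_C,
      MvPolynomial.aeval_X]
    simp only [map_pow, map_neg, map_one, pow_one]
    rw [pow_succ (-1 : ℂ) v]
    have e : ((-1 : ℂ) ^ v) * (-1) ^ v = 1 := by rw [← mul_pow]; norm_num
    have e2 : (-1 : ℂ) * ψ (some (⟨1 - 1, by omega⟩, i)) = -ψ (some (⟨0, by omega⟩, i)) := by
      rw [neg_one_mul]
    rw [e2]
    linear_combination (-((-ψ (some (⟨0, by omega⟩, i))) ^ (v + 1))) * e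
  · show MvPolynomial.aeval ψ (ac m i 0) = 0
    rw [ac, if_pos rfl, map_sub, map_one, map_pow, MvPolynomial.aeval_X, h1, one_pow, sub_self]

/-- `ζ(k)` and the numbers `R_k(x)` -/
noncomputable def zi (k : ℕ) (o : Option ℚ) : ℝ := o.elim (zt k) (fun x => Rk k x)

/-- the polynomial `ζ(k) - zi` -/
lemma cross_aux (w : ℕ) (hw : 2 ≤ w) (o : Option ℚ) (p x' : ℚ) (hp : 0 < p) (hx' : 0 < x') (hne : p ≠ x')
    (ho : o = none ∨ o = some p) (r s : ℚ) :
    JointR (Real.exp r * zi w o) (Real.exp s * zi w (some x')) := by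
  obtain ⟨q, hq⟩ : ∃ q, q = (p.den * x'.den) * (r.den * s.den) := ⟨_, rfl⟩
  have hq1 : 1 ≤ q := by
    rw [hq]
    exact Nat.one_le_iff_ne_zero.2 (Nat.mul_ne_zero (Nat.mul_ne_zero p.den_ne_zero x'.den_ne_zero)
      (Nat.mul_ne_zero r.den_ne_zero s.den_ne_zero))
  have hq0 : (q : ℝ) ≠ 0 := by positivity
  obtain ⟨m, hm1, hm⟩ := nat_of_den p hp q (by
    rw [hq]; exact (dvd_mul_right _ _).mul_right _) hq1
  obtain ⟨m', hm1', hm'⟩ := nat_of_den x' hx' q (by
    rw [hq]; exact (dvd_mul_left _ _).mul_right _) hq1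
  obtain ⟨R, hR⟩ := int_of_den r q (by
    rw [hq]; exact (dvd_mul_right _ _).mul_left _) hq1
  obtain ⟨S, hS⟩ := int_of_den s q (by
    rw [hq]; exact (dvd_mul_left _ _).mul_left _) hq1
  have hp' : (0 : ℝ) < p := by exact_mod_cast hp
  have hx'' : (0 : ℝ) < x' := by exact_mod_cast hx'
  obtain ⟨mm, hmm⟩ : ∃ mm : Fin 2 → ℕ, mm = ![m, m'] := ⟨_, rfl⟩
  have hinj : Function.Injective mm := by
    have hmm' : m ≠ m' := by
      rintro rfl
      rw [hm] at hm'
      exact hne (by exact_mod_cast hm')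
    intro a b hab
    fin_cases a <;> fin_cases b <;> simp [hmm] at hab ⊢
    · exact hmm' hab
    · exact hmm' hab.symm
  have hpos : ∀ i, 1 ≤ mm i := by
    intro i
    rw [hmm]
    fin_cases i
    · exact hm1
    · exact hm1'
  have hmeas := measM_EE w 2 mm hinj hpos hq1
  have hv0 := Zp_val (J := w) w hw le_rfl q hq1 mm 0 p hp' (by rw [hmm]; exact hm)
  have hv1 := Zp_val (J := w) w hw le_rfl q hq1 mm 1 x' hx'' (by rw [hmm]; exact hm')
  obtain ⟨y, hy⟩ : ∃ y : Option (Fin w × Fin 2) → ℝ, y = (fun o : Option (Fin w × Fin 2) =>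
      o.elim (Real.exp (-1 / q)) (fun p => EE (p.1 + 1) ((mm p.2 : ℝ) / q))) := ⟨_, rfl⟩
  rw [← hy] at hmeas hv0 hv1
  have hyn : y none = Real.exp (-1 / q) := by rw [hy]; rfl
  obtain ⟨N, hN⟩ : ∃ N : ℕ, N = R.natAbs + S.natAbs := ⟨_, rfl⟩
  obtain ⟨A, hA⟩ : ∃ A : ℕ, (A : ℤ) = N + R := ⟨(N + R).toNat, by omega⟩
  obtain ⟨B, hB⟩ : ∃ B : ℕ, (B : ℤ) = N + S := ⟨(N + S).toNat, by omega⟩
  have hwp : ∀ i : ℕ, Real.exp (-1 / q) ^ i = Real.exp (-(i / q)) := by
    intro i
    rw [← Real.exp_nat_mul]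
    congr 1
    ring
  have hcA : Real.exp (-1 / q) ^ A * Real.exp r = Real.exp (-1 / q) ^ N := by
    rw [hwp, hwp, ← Real.exp_add, ← hR]
    congr 1
    have : (A : ℝ) = N + R := by exact_mod_cast hA
    rw [this]; ring
  have hcB : Real.exp (-1 / q) ^ B * Real.exp s = Real.exp (-1 / q) ^ N := by
    rw [hwp, hwp, ← Real.exp_add, ← hS]
    congr 1
    have : (B : ℝ) = N + S := by exact_mod_cast hB
    rw [this]; ring
  -- the polynomial belonging to `o`
  obtain ⟨Zo, hZo, hZoψ⟩ : ∃ Zo : MvPolynomial (Option (Fin w × Fin 2)) ℤ,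
      MvPolynomial.aeval y Zo = zt w - zi w o ∧
      ∀ ψ : Option (Fin w × Fin 2) → ℂ, ψ none = 1 → ψ (some (⟨0, by omega⟩, 0)) = 0 →
        MvPolynomial.aeval ψ Zo = 0 := by
    rcases ho with rfl | rfl
    · exact ⟨0, by simp [zi], fun ψ _ _ => by simp⟩
    · refine ⟨Zp w (mm 0) 0, by rw [hv0]; simp [zi, Rk], fun ψ h1 h2 => ?_⟩
      rw [Zp_one w hw le_rfl _ _ ψ h1, h2, neg_zero, zero_pow (by omega), neg_zero]
  refine jointR_lin y hmeas _ _
    (MvPolynomial.X none ^ N * (Zp w (mm 1) 1 - Zo))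
    (MvPolynomial.X none ^ B) (MvPolynomial.X none ^ A) ?_ ?_ ?_
  · simp only [map_mul, map_sub, map_pow, MvPolynomial.aeval_X, hyn, hv1, hZo]
    have e1 : zi w (some x') = zt w - Zk w x' := rfl
    calc Real.exp (-1 / q) ^ A * (Real.exp r * zi w o)
        = (Real.exp (-1 / q) ^ A * Real.exp r) * zi w o := by ring
      _ = Real.exp (-1 / q) ^ N * (Zk w x' - (zt w - zi w o)) +
          Real.exp (-1 / q) ^ N * zi w (some x') := by rw [hcA, e1]; ring
      _ = _ := by rw [← hcB]; ring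
  · exact pow_ne_zero _ (MvPolynomial.X_ne_zero _)
  · intro α β _ _
    obtain ⟨ψ, hψ⟩ : ∃ ψ : ℂ → Option (Fin w × Fin 2) → ℂ, ψ = fun t o =>
        o.elim 1 (fun p => if p.2 = 0 then 0 else t) := ⟨_, rfl⟩
    have hψn : ∀ t, ψ t none = 1 := fun t => by rw [hψ]; rfl
    have hψ0 : ∀ t, ψ t (some (⟨0, by omega⟩, 0)) = 0 := fun t => by rw [hψ]; simp
    have hψ1 : ∀ t, ψ t (some (⟨0, by omega⟩, 1)) = t := fun t => by rw [hψ]; simp
    have key : ∀ t, MvPolynomial.aeval (ψ t) (MvPolynomial.X none ^ N * (Zp w (mm 1) 1 - Zo)) +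
        MvPolynomial.aeval (ψ t) (MvPolynomial.X none ^ B : MvPolynomial (Option (Fin w × Fin 2)) ℤ) * β -
        MvPolynomial.aeval (ψ t) (MvPolynomial.X none ^ A : MvPolynomial (Option (Fin w × Fin 2)) ℤ) * α =
          -((-t) ^ w) + β - α := by
      intro t
      simp only [map_mul, map_sub, map_pow, MvPolynomial.aeval_X, hψn]
      rw [Zp_one w hw le_rfl _ _ _ (hψn t), hψ1, hZoψ _ (hψn t) (hψ0 t)]
      simp
    by_cases h : β - α = 0
    · refine ⟨ψ 1, ?_⟩
      rw [key]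
      have e1 : -((-(1 : ℂ)) ^ w) + β - α = -((-(1 : ℂ)) ^ w) := by linear_combination h
      rw [e1, neg_ne_zero]
      exact pow_ne_zero _ (by norm_num)
    · refine ⟨ψ 0, ?_⟩
      rw [key, neg_zero, zero_pow (by omega), neg_zero, zero_add]
      exact h

/-- **Two different numbers among `ζ(k)`, `R_k(x)`** -/
theorem joint_cross_zi (w : ℕ) (hw : 2 ≤ w) (o o' : Option ℚ) (ho : ∀ x, o = some x → 0 < x)
    (ho' : ∀ x, o' = some x → 0 < x) (hne : o ≠ o') (r s : ℚ) :
    JointR (Real.exp r * zi w o) (Real.exp s * zi w o') := by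
  rcases o' with _ | x'
  · rcases o with _ | x
    · exact absurd rfl hne
    · have hx := ho x rfl
      exact (cross_aux w hw none (x + 1) x (by linarith) hx (by
        intro h
        linarith) (Or.inl rfl) s r).symm
  · have hx' := ho' x' rfl
    rcases o with _ | x
    · exact cross_aux w hw none (x' + 1) x' (by linarith) hx' (by
        intro h
        linarith) (Or.inl rfl) r s
    · exact cross_aux w hw (some x) x x' (ho x rfl) hx' (fun h => hne (by rw [h])) (Or.inr rfl) r s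

/-- **All pairs** -/
theorem joint_zi (w : ℕ) (hw : 2 ≤ w) (o o' : Option ℚ) (ho : ∀ x, o = some x → 0 < x)
    (ho' : ∀ x, o' = some x → 0 < x) (r s : ℚ) (hne : o = o' → r ≠ s ∧ zi w o ≠ 0) :
    JointR (Real.exp r * zi w o) (Real.exp s * zi w o') := by
  by_cases h : o = o'
  · subst h
    obtain ⟨h1, h2⟩ := hne rfl
    exact joint_exp _ h2 r s h1
  · exact joint_cross_zi w hw o o' ho ho' h r s

end Run7.h168.Z3
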