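import Pool.Agent.R473.JC.Final

/-!
# Monomials in two real numbers, one of which has a transcendence measure
-/

set_option autoImplicit false

namespace Run7.h168.Z3

open Pool.Agent.R356 Pool.Agent.TH456.TM Pool.Agent.R473.JC

lemma isAlg_zpow {A : Subalgebra ℤ ℝ} {y : ℝ} (hy : IsAlgebraic A y) (n : ℤ) :
    IsAlgebraic A (y ^ n) := by
  obtain ⟨k, rfl | rfl⟩ := n.eq_nat_or_neg
  · rw [zpow_natCast]; exact hy.pow k
  · rw [zpow_neg, zpow_natCast]; exact (hy.pow k).inv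

/-- the monomials `z^i x^j` and `z^k x^l` with non-proportional exponents -/
theorem joint_mono (x z : ℝ) (hx : MeasT (x : ℂ)) (hz : z ≠ 0) (i j k l : ℤ)
    (h : i * l - j * k ≠ 0) : JointR (z ^ i * x ^ j) (z ^ k * x ^ l) := by
  have hx0 : x ≠ 0 := by
    have := measT_ne_zero hx
    exact_mod_cast this
  refine jointR_of_alg x hx _ _ ?_
  obtain ⟨u, hu⟩ : ∃ u, u = z ^ i * x ^ j := ⟨_, rfl⟩
  obtain ⟨v, hv⟩ : ∃ v, v = z ^ k * x ^ l := ⟨_, rfl⟩
  rw [← hu, ← hv]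
  have hu1 : IsAlgebraic (Algebra.adjoin ℤ ({u, v} : Set ℝ)) u :=
    isAlgebraic_algebraMap (⟨u, mem_u u v⟩ : Algebra.adjoin ℤ ({u, v} : Set ℝ))
  have hv1 : IsAlgebraic (Algebra.adjoin ℤ ({u, v} : Set ℝ)) v :=
    isAlgebraic_algebraMap (⟨v, mem_v u v⟩ : Algebra.adjoin ℤ ({u, v} : Set ℝ))
  have hrel : v ^ i * u ^ (-k) = x ^ (i * l - j * k) := by
    rw [hu, hv, mul_zpow, mul_zpow, ← zpow_mul, ← zpow_mul, ← zpow_mul, ← zpow_mul]
    calc z ^ (k * i) * x ^ (l * i) * (z ^ (i * -k) * x ^ (j * -k))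
        = (z ^ (k * i) * z ^ (i * -k)) * (x ^ (l * i) * x ^ (j * -k)) := by ring
      _ = x ^ (i * l - j * k) := by
          rw [← zpow_add₀ hz, ← zpow_add₀ hx0]
          have e1 : k * i + i * -k = 0 := by ring
          have e2 : l * i + j * -k = i * l - j * k := by ring
          rw [e1, e2, zpow_zero, one_mul]
  have h1 : IsAlgebraic (Algebra.adjoin ℤ ({u, v} : Set ℝ)) (x ^ (i * l - j * k)) := by
    rw [← hrel]
    exact (isAlg_zpow hv1 i).mul (isAlg_zpow hu1 (-k))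
  obtain ⟨n, hn⟩ : ∃ n, n = i * l - j * k := ⟨_, rfl⟩
  rw [← hn] at h1 h
  have h2 : IsAlgebraic (Algebra.adjoin ℤ ({u, v} : Set ℝ)) (x ^ n.natAbs) := by
    rcases Int.natAbs_eq n with h3 | h3
    · rw [h3, zpow_natCast] at h1; exact h1
    · rw [h3, zpow_neg, zpow_natCast] at h1
      have := h1.inv
      rwa [inv_inv] at this
  exact IsAlgebraic.of_pow (Int.natAbs_pos.2 h) h2

end Run7.h168.Z3
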